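import Pool.Agent.H191Z.RDefs

set_option autoImplicit false

open MvPolynomial
open Pool.Agent.H191Z.Rig

namespace Pool.Agent.H784Z.Rig

section descent

variable {K K2 : Type} [Field K] [Field K2] [Algebra K K2] {d : ℕ}

/-- apply a linear functional to the coefficients -/
noncomputable def lam (φ : K2 →ₗ[K] K) (a : MvPolynomial (Fin d) K2) : MvPolynomial (Fin d) K :=
  ∑ m ∈ a.support, monomial m (φ (coeff m a))

theorem eval_lam (φ : K2 →ₗ[K] K) (a : MvPolynomial (Fin d) K2) (τ : Fin d → K) :
    eval τ (lam φ a) = φ (eval (fun i => algebraMap K K2 (τ i)) a) := by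
  rw [lam, map_sum, eval_eq' , map_sum]
  refine Finset.sum_congr rfl fun m _ => ?_
  rw [eval_monomial, Finsupp.prod_fintype _ _ (by simp)]
  have : coeff m a * ∏ i, algebraMap K K2 (τ i) ^ m i = (∏ i, τ i ^ m i) • coeff m a := by
    rw [Algebra.smul_def, map_prod, mul_comm]
    simp
  rw [this, map_smul, smul_eq_mul, mul_comm]

theorem coeff_lam (φ : K2 →ₗ[K] K) (a : MvPolynomial (Fin d) K2) (m : Fin d →₀ ℕ) :
    coeff m (lam φ a) = φ (coeff m a) := by
  classical
  rw [lam, coeff_sum]
  simp only [coeff_monomial]
  rw [Finset.sum_ite_eq']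
  split_ifs with h
  · rfl
  · rw [notMem_support_iff.1 h, map_zero]

theorem eval_map' (g : MvPolynomial (Fin d) K) (τ : Fin d → K) :
    eval (fun i => algebraMap K K2 (τ i)) (map (algebraMap K K2) g)
      = algebraMap K K2 (eval τ g) := by
  induction g using MvPolynomial.induction_on with
  | C c => simp
  | add p q hp hq => simp [hp, hq]
  | mul_X p i hp => simp [hp]

/-- a rational function over `K2` that is algebraic over `K[t]` is defined over `K` -/
theorem descend [IsAlgClosed K] (a b : MvPolynomial (Fin d) K2) (hb : b ≠ 0)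
    (H : Polynomial (MvPolynomial (Fin d) K)) (hH : H ≠ 0)
    (hab : Polynomial.eval a ((H.map (map (algebraMap K K2))).scaleRoots b) = 0) :
    ∃ a' b' : MvPolynomial (Fin d) K, b' ≠ 0 ∧
      a * map (algebraMap K K2) b' = b * map (algebraMap K K2) a' := by
  obtain ⟨m, hm⟩ := ne_zero_iff.1 hb
  obtain ⟨φ, hφ⟩ := Module.Projective.exists_dual_eq_one K hm
  have hinj : Function.Injective (map (σ := Fin d) (algebraMap K K2)) :=
    map_injective _ (algebraMap K K2).injective
  refine ⟨lam φ a, lam φ b, ?_, ?_⟩
  · intro h0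
    have := coeff_lam φ b m
    rw [h0, hφ] at this
    simp at this
  have hlc : map (algebraMap K K2) H.leadingCoeff ≠ 0 :=
    (map_ne_zero_iff _ hinj).2 (Polynomial.leadingCoeff_ne_zero.2 hH)
  have hD : (a * map (algebraMap K K2) (lam φ b) - b * map (algebraMap K K2) (lam φ a)) * b *
      map (algebraMap K K2) H.leadingCoeff = 0 := by
    apply funext_set (fun _ => Set.range (algebraMap K K2))
      (fun _ => Set.infinite_range_of_injective (algebraMap K K2).injective)
    intro x hx
    choose τ hτ using fun i => hx i (Set.mem_univ i)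
    obtain rfl : x = fun i => algebraMap K K2 (τ i) := funext fun i => (hτ i).symm
    set e : MvPolynomial (Fin d) K2 →+* K2 := eval (fun i => algebraMap K K2 (τ i)) with he
    rw [map_zero, map_mul, map_mul]
    by_cases h1 : e b = 0
    · rw [h1]; simp
    by_cases h2 : eval τ H.leadingCoeff = 0
    · rw [he, eval_map', h2]; simp
    have h3 : Polynomial.eval₂ e (e a) ((H.map (map (algebraMap K K2))).scaleRoots b) = 0 := by
      rw [Polynomial.eval₂_at_apply, hab, map_zero]
    have h4 : e a = e b * (e a / e b) := by field_simp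
    rw [h4, Polynomial.scaleRoots_eval₂_mul] at h3
    have h5 : Polynomial.eval₂ e (e a / e b) (H.map (map (algebraMap K K2))) = 0 :=
      (mul_eq_zero.1 h3).resolve_left (pow_ne_zero _ h1)
    have h6 : H.map (eval τ) ≠ 0 := by
      intro h0
      apply h2
      have := congrArg (fun q => Polynomial.coeff q H.natDegree) h0
      simpa using this
    have h7 : ((H.map (eval τ)).map (algebraMap K K2)).IsRoot (e a / e b) := by
      rw [Polynomial.IsRoot, Polynomial.map_map, Polynomial.eval_map, ← h5, Polynomial.eval₂_map]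
      congr 1
      apply RingHom.ext
      intro g
      simp only [RingHom.comp_apply]
      rw [he, eval_map']
    obtain ⟨c, hc⟩ := (IsAlgClosed.splits _).mem_range_of_isRoot h6 h7
    have h8 : e a = c • e b := by rw [Algebra.smul_def, hc]; field_simp
    have h9 : e (a * map (algebraMap K K2) (lam φ b) - b * map (algebraMap K K2) (lam φ a)) = 0 := by
      rw [map_sub, map_mul, map_mul]
      have i1 : e (map (algebraMap K K2) (lam φ b)) = algebraMap K K2 (φ (e b)) := by
        rw [he, eval_map', eval_lam]
      have i2 : e (map (algebraMap K K2) (lam φ a)) = algebraMap K K2 (φ (e a)) := by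
        rw [he, eval_map', eval_lam]
      rw [i1, i2, h8, map_smul, smul_eq_mul, map_mul, Algebra.smul_def]
      ring
    rw [h9]; simp
  have := (mul_eq_zero.1 hD).resolve_right hlc
  have := (mul_eq_zero.1 this).resolve_right hb
  exact sub_eq_zero.1 this

end descent

section data

variable (K : Type) [Field K] (d : ℕ)

/-- the rational function field -/
abbrev LL : Type := FractionRing (MvPolynomial (Fin d) K)
/-- its algebraic closure -/
abbrev KK : Type := AlgebraicClosure (LL K d)
/-- evaluation at the generic point -/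
noncomputable def ev : MvPolynomial (Fin d) (KK K d) →ₐ[KK K d] KK K d :=
  aeval fun i => algebraMap (LL K d) (KK K d) (algebraMap (MvPolynomial (Fin d) K) (LL K d) (X i))

/-- the ideal of the generic point -/
noncomputable def mm : Ideal (MvPolynomial (Fin d) (KK K d)) := RingHom.ker (ev K d).toRingHom

instance mm_prime : (mm K d).IsPrime := RingHom.ker_isPrime _

/-- the local ring at the generic point -/
abbrev OO : Type := Localization.AtPrime (mm K d)

theorem ev_map (g : MvPolynomial (Fin d) K) :
    ev K d (map (algebraMap K (KK K d)) g)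
      = algebraMap (LL K d) (KK K d) (algebraMap (MvPolynomial (Fin d) K) (LL K d) g) := by
  induction g using MvPolynomial.induction_on with
  | C c =>
    rw [map_C, ev, aeval_C]
    rw [IsScalarTower.algebraMap_apply K (LL K d) (KK K d),
      IsScalarTower.algebraMap_apply K (MvPolynomial (Fin d) K) (LL K d)]
    rfl
  | add p q hp hq => simp only [map_add, hp, hq]
  | mul_X p i hp => simp only [map_mul, hp, map_X]; simp [ev]

theorem unit_i1 (y : nonZeroDivisors (MvPolynomial (Fin d) K)) :
    IsUnit (((algebraMap (MvPolynomial (Fin d) (KK K d)) (OO K d)).comp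
      (map (algebraMap K (KK K d)))) y) := by
  have : map (algebraMap K (KK K d)) y.1 ∈ (mm K d).primeCompl := by
    intro h
    have h' : ev K d (map (algebraMap K (KK K d)) y.1) = 0 := h
    rw [ev_map, map_eq_zero_iff _ (algebraMap (LL K d) (KK K d)).injective,
      map_eq_zero_iff _ (IsFractionRing.injective _ _)] at h'
    exact nonZeroDivisors.ne_zero y.2 h'
  exact IsLocalization.map_units (OO K d) ⟨_, this⟩

/-- the second embedding of the function field -/
noncomputable def ii : LL K d →+* OO K d := IsLocalization.lift (unit_i1 K d)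

theorem ii_alg (g : MvPolynomial (Fin d) K) :
    ii K d (algebraMap _ _ g) = algebraMap (MvPolynomial (Fin d) (KK K d)) (OO K d)
      (map (algebraMap K (KK K d)) g) := IsLocalization.lift_eq _ _

theorem unit_res (y : (mm K d).primeCompl) : IsUnit (ev K d y) :=
  IsUnit.mk0 _ y.2

/-- the residue map -/
noncomputable def rr : OO K d →ₐ[KK K d] KK K d := IsLocalization.liftAlgHom (unit_res K d)

theorem rr_alg (g : MvPolynomial (Fin d) (KK K d)) :
    rr K d (algebraMap _ _ g) = ev K d g := by
  simp [rr]

theorem rr_ii (l : LL K d) : rr K d (ii K d l) = algebraMap (LL K d) (KK K d) l := by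
  have : ((rr K d).toRingHom.comp (ii K d)) = algebraMap (LL K d) (KK K d) := by
    apply IsLocalization.ringHom_ext (nonZeroDivisors (MvPolynomial (Fin d) K))
    apply RingHom.ext
    intro g
    simp only [RingHom.comp_apply, ii_alg]
    exact (rr_alg K d _).trans (ev_map K d g)
  exact congrArg (fun f : LL K d →+* KK K d => f l) this

theorem ii_const (c : K) : ii K d (algebraMap K (LL K d) c)
    = algebraMap (KK K d) (OO K d) (algebraMap (LL K d) (KK K d) (algebraMap K (LL K d) c)) := by
  rw [← IsScalarTower.algebraMap_apply K (LL K d) (KK K d),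
    IsScalarTower.algebraMap_apply K (MvPolynomial (Fin d) K) (LL K d), ii_alg,
    IsScalarTower.algebraMap_apply (KK K d) (MvPolynomial (Fin d) (KK K d)) (OO K d)]
  simp

/-- the embedding of a domain into an algebraically closed field -/
noncomputable def emb (O : Type) [CommRing O] [IsDomain O] :
    O →+* AlgebraicClosure (FractionRing O) :=
  (algebraMap (FractionRing O) (AlgebraicClosure (FractionRing O))).comp
    (algebraMap O (FractionRing O))

theorem emb_inj (O : Type) [CommRing O] [IsDomain O] : Function.Injective (emb O) :=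
  (algebraMap (FractionRing O) (AlgebraicClosure (FractionRing O))).injective.comp
    (IsFractionRing.injective O (FractionRing O))

/-- an algebraically closed field containing the local ring -/
abbrev Om : Type := AlgebraicClosure (FractionRing (OO K d))

/-- the embedding of the local ring -/
noncomputable def psi : OO K d →+* Om K d := emb (OO K d)

theorem psi_inj : Function.Injective (psi K d) := emb_inj (OO K d)

theorem closed' [IsAlgClosed K] (w : Om K d) (hw : w ∈ Subfield.closure (Set.range (psi K d)))
    (hi : ((psi K d).comp (ii K d)).IsIntegralElem w) : ∃ l : LL K d, psi K d (ii K d l) = w := by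
  set θ : MvPolynomial (Fin d) (KK K d) →+* Om K d :=
    (psi K d).comp (algebraMap (MvPolynomial (Fin d) (KK K d)) (OO K d)) with hθ
  have hθi : Function.Injective θ := (psi_inj K d).comp
    (IsLocalization.injective (OO K d) (mm K d).primeCompl_le_nonZeroDivisors)
  have hfrac : ∀ o : OO K d, ∃ a b : MvPolynomial (Fin d) (KK K d), b ≠ 0 ∧
      psi K d o = θ a / θ b := by
    intro o
    obtain ⟨⟨a, s⟩, h⟩ := IsLocalization.surj (mm K d).primeCompl o
    have hs : s.1 ≠ 0 := nonZeroDivisors.ne_zero ((mm K d).primeCompl_le_nonZeroDivisors s.2)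
    refine ⟨a, s.1, hs, ?_⟩
    rw [eq_div_iff ((map_ne_zero_iff _ hθi).2 hs), hθ, RingHom.comp_apply, RingHom.comp_apply,
      ← map_mul]
    exact congrArg _ h
  have hab : ∃ a b : MvPolynomial (Fin d) (KK K d), b ≠ 0 ∧ w = θ a / θ b := by
    rw [Subfield.mem_closure_iff] at hw
    obtain ⟨y, hy, z, hz, rfl⟩ := hw
    rw [← RingHom.coe_range, Subring.closure_eq] at hy hz
    obtain ⟨o1, rfl⟩ := hy
    obtain ⟨o2, rfl⟩ := hz
    obtain ⟨a1, b1, hb1, e1⟩ := hfrac o1
    obtain ⟨a2, b2, hb2, e2⟩ := hfrac o2
    by_cases ha2 : a2 = 0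
    · exact ⟨0, 1, one_ne_zero, by rw [e2, ha2]; simp⟩
    · refine ⟨a1 * b2, b1 * a2, mul_ne_zero hb1 ha2, ?_⟩
      rw [e1, e2, map_mul, map_mul, div_div_div_eq]
  obtain ⟨a, b, hb, rfl⟩ := hab
  obtain ⟨h, hm, hh⟩ := hi
  set H := IsLocalization.integerNormalization (nonZeroDivisors (MvPolynomial (Fin d) K)) h
    with hHdef
  have hH : H ≠ 0 := by
    rw [hHdef, Ne, IsFractionRing.integerNormalization_eq_zero_iff]
    exact hm.ne_zero
  have h1 := IsLocalization.integerNormalization_eval₂_eq_zero
    (nonZeroDivisors (MvPolynomial (Fin d) K)) _ h hh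
  have hc : ((psi K d).comp (ii K d)).comp (algebraMap (MvPolynomial (Fin d) K) (LL K d))
      = θ.comp (map (algebraMap K (KK K d))) := by
    apply RingHom.ext
    intro g
    simp only [RingHom.comp_apply, ii_alg, hθ]
  rw [hc, ← Polynomial.eval₂_map, ← hHdef] at h1
  have h2 := Polynomial.scaleRoots_eval₂_eq_zero_of_eval₂_div_eq_zero hθi h1
    (mem_nonZeroDivisors_of_ne_zero hb)
  rw [Polynomial.eval₂_at_apply, map_eq_zero_iff _ hθi] at h2
  obtain ⟨a', b', hb', e⟩ := descend a b hb H hH h2
  refine ⟨algebraMap _ _ a' / algebraMap _ _ b', ?_⟩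
  have h3 : ∀ g : MvPolynomial (Fin d) K, ((psi K d).comp (ii K d)) (algebraMap _ _ g)
      = θ (map (algebraMap K (KK K d)) g) := fun g =>
    congrArg (fun f : MvPolynomial (Fin d) K →+* Om K d => f g) hc
  have h4 : psi K d (ii K d (algebraMap _ _ a' / algebraMap _ _ b'))
      = ((psi K d).comp (ii K d)) (algebraMap _ _ a' / algebraMap _ _ b') := rfl
  have hb'' : θ (map (algebraMap K (KK K d)) b') ≠ 0 := by
    rw [map_ne_zero_iff _ hθi, map_ne_zero_iff _ (map_injective _ (algebraMap K (KK K d)).injective)]
    exact hb'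
  rw [h4, map_div₀, h3, h3, div_eq_div_iff hb'' ((map_ne_zero_iff _ hθi).2 hb), ← map_mul,
    ← map_mul, e, mul_comm]

theorem rigData [IsAlgClosed K] :
    Nonempty (RigData (LL K d) (Set.range (algebraMap K (LL K d)))) := by
  obtain ⟨V, hV, hloc⟩ := IsLocalRing.exists_factor_valuationRing (psi K d)
  refine ⟨{ K2 := KK K d, O := OO K d, i1 := ii K d, res := rr K d, res_i1 := rr_ii K d,
            const := ?_, Ω := Om K d, V := V, ov := (psi K d).codRestrict V.toSubring hV,
            ov_ker := ?_, closed := ?_ }⟩
  · rintro _ ⟨c, rfl⟩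
    exact ii_const K d c
  · intro o ho
    rw [IsLocalRing.mem_maximalIdeal, mem_nonunits_iff]
    intro hu
    have h1 : IsUnit o := hloc.map_nonunit o hu
    have h2 := h1.map (rr K d)
    rw [ho] at h2
    exact not_isUnit_zero h2
  · intro w hw hi
    exact closed' K d w hw hi

end data

end Pool.Agent.H784Z.Rig
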