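import Mathlib

set_option autoImplicit false

namespace Pool.Agent.H784Z.Rig

/-- the Fermat quartic form is anisotropic over `R` -/
def Aniso (R : Type) [CommRing R] : Prop :=
  ∀ x y z : R, x ^ 4 + y ^ 4 + z ^ 4 = 0 → x = 0 ∧ y = 0 ∧ z = 0

theorem aniso_zmod : Aniso (ZMod 5) := by
  unfold Aniso
  decide

theorem Aniso.of_equiv {R S : Type} [CommRing R] [CommRing S] (e : R ≃+* S) (h : Aniso S) :
    Aniso R := by
  intro x y z hxyz
  have := h (e x) (e y) (e z) (by
    rw [← map_pow, ← map_pow, ← map_pow, ← map_add, ← map_add, hxyz, map_zero])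
  simpa using this

theorem Aniso.poly {R : Type} [CommRing R] (h : Aniso R) : Aniso (Polynomial R) := by
  intro x y z hxyz
  set n := max x.natDegree (max y.natDegree z.natDegree) with hn
  have hx : x.natDegree ≤ n := le_max_left _ _
  have hy : y.natDegree ≤ n := (le_max_left _ _).trans (le_max_right _ _)
  have hz : z.natDegree ≤ n := (le_max_right _ _).trans (le_max_right _ _)
  have hc := congrArg (fun q : Polynomial R => q.coeff (4 * n)) hxyz
  simp only [Polynomial.coeff_add, Polynomial.coeff_pow_of_natDegree_le hx,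
    Polynomial.coeff_pow_of_natDegree_le hy, Polynomial.coeff_pow_of_natDegree_le hz,
    Polynomial.coeff_zero] at hc
  obtain ⟨h1, h2, h3⟩ := h _ _ _ hc
  have key : ∀ q : Polynomial R, q.natDegree = n → q.coeff n = 0 → n = 0 := by
    intro q hq hq0
    have : q = 0 := by
      rw [← Polynomial.leadingCoeff_eq_zero, Polynomial.leadingCoeff, hq, hq0]
    rw [← hq, this, Polynomial.natDegree_zero]
  have hn0 : n = 0 := by
    rcases max_choice x.natDegree (max y.natDegree z.natDegree) with e | e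
    · exact key x (by rw [hn, e]) h1
    · rcases max_choice y.natDegree z.natDegree with e' | e'
      · exact key y (by rw [hn, e, e']) h2
      · exact key z (by rw [hn, e, e']) h3
  rw [hn0] at hx hy hz h1 h2 h3
  refine ⟨?_, ?_, ?_⟩
  · rw [Polynomial.eq_C_of_natDegree_le_zero hx, h1, map_zero]
  · rw [Polynomial.eq_C_of_natDegree_le_zero hy, h2, map_zero]
  · rw [Polynomial.eq_C_of_natDegree_le_zero hz, h3, map_zero]

theorem Aniso.mv {R : Type} [CommRing R] (h : Aniso R) (d : ℕ) :
    Aniso (MvPolynomial (Fin d) R) := by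
  induction d with
  | zero => exact Aniso.of_equiv (MvPolynomial.isEmptyRingEquiv R (Fin 0)) h
  | succ d ih => exact Aniso.of_equiv (MvPolynomial.finSuccEquiv R d).toRingEquiv ih.poly

theorem Aniso.frac {R : Type} [CommRing R] [IsDomain R] (h : Aniso R) :
    Aniso (FractionRing R) := by
  intro x y z hxyz
  obtain ⟨a1, b1, hb1, rfl⟩ := IsFractionRing.div_surjective (A := R) x
  obtain ⟨a2, b2, hb2, rfl⟩ := IsFractionRing.div_surjective (A := R) y
  obtain ⟨a3, b3, hb3, rfl⟩ := IsFractionRing.div_surjective (A := R) z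
  have hinj := IsFractionRing.injective R (FractionRing R)
  have n1 : b1 ≠ 0 := nonZeroDivisors.ne_zero hb1
  have n2 : b2 ≠ 0 := nonZeroDivisors.ne_zero hb2
  have n3 : b3 ≠ 0 := nonZeroDivisors.ne_zero hb3
  have m1 : algebraMap R (FractionRing R) b1 ≠ 0 := (map_ne_zero_iff _ hinj).2 n1
  have m2 : algebraMap R (FractionRing R) b2 ≠ 0 := (map_ne_zero_iff _ hinj).2 n2
  have m3 : algebraMap R (FractionRing R) b3 ≠ 0 := (map_ne_zero_iff _ hinj).2 n3
  have h0 : (a1 * b2 * b3) ^ 4 + (a2 * b1 * b3) ^ 4 + (a3 * b1 * b2) ^ 4 = 0 := by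
    apply hinj
    simp only [map_add, map_pow, map_mul, map_zero]
    field_simp at hxyz
    linear_combination hxyz
  obtain ⟨h1, h2, h3⟩ := h _ _ _ h0
  have e1 : a1 = 0 := by simpa [n1, n2, n3] using h1
  have e2 : a2 = 0 := by simpa [n1, n2, n3] using h2
  have e3 : a3 = 0 := by simpa [n1, n2, n3] using h3
  simp [e1, e2, e3]

theorem no_zero (d : ℕ) (x y z : FractionRing (MvPolynomial (Fin d) (ZMod 5)))
    (h : x ^ 4 + y ^ 4 + z ^ 4 = 0) : x = 0 ∧ y = 0 ∧ z = 0 :=
  haveI : Fact (Nat.Prime 5) := ⟨by norm_num⟩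
  (aniso_zmod.mv d).frac x y z h

end Pool.Agent.H784Z.Rig
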