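import Pool.Agent.H191Z.RDefs
import Pool.Agent.H191Z.GenusDefs
import Pool.Agent.H191Z.GAlg
import Pool.Agent.H784Z.Rig.NoZero
import Pool.Agent.H784Z.Rig.Data

set_option autoImplicit false

open TensorProduct CategoryTheory AlgebraicGeometry Polynomial
open Pool.Agent.H191Z.Gerbe Pool.Agent.H191Z.Rig

namespace Pool.Agent.H784Z.Rig

section

variable (k : Type) [Field k] [Fintype k] (d : ℕ)

/-- Frobenius on the coefficients -/
noncomputable def sP : MvPolynomial (Fin d) (AlgebraicClosure k) ≃+*
    MvPolynomial (Fin d) (AlgebraicClosure k) :=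
  MvPolynomial.mapEquiv (Fin d) (frob k).toRingEquiv

theorem coeff_sP (g : MvPolynomial (Fin d) (AlgebraicClosure k)) (m : Fin d →₀ ℕ) :
    MvPolynomial.coeff m (sP k d g) = frob k (MvPolynomial.coeff m g) := by
  simp [sP, MvPolynomial.coeff_map]

theorem coeff_sP_pow (n : ℕ) (g : MvPolynomial (Fin d) (AlgebraicClosure k)) (m : Fin d →₀ ℕ) :
    MvPolynomial.coeff m ((sP k d)^[n] g) = (frob k)^[n] (MvPolynomial.coeff m g) := by
  induction n with
  | zero => rfl
  | succ n ih => rw [Function.iterate_succ_apply', Function.iterate_succ_apply', coeff_sP, ih]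

theorem frob_periodic (c : AlgebraicClosure k) : ∃ n, 0 < n ∧ (frob k)^[n] c = c := by
  have hint : IsIntegral k c := Algebra.IsIntegral.isIntegral c
  have hfin : ((minpoly k c).rootSet (AlgebraicClosure k)).Finite := rootSet_finite _ _
  have hmem : ∀ n : ℕ, (frob k)^[n] c ∈ (minpoly k c).rootSet (AlgebraicClosure k) := by
    intro n
    induction n with
    | zero =>
      rw [mem_rootSet]
      exact ⟨minpoly.ne_zero hint, minpoly.aeval k c⟩
    | succ n ih =>
      rw [mem_rootSet] at ih ⊢
      refine ⟨ih.1, ?_⟩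
      rw [Function.iterate_succ_apply', aeval_algHom_apply, ih.2, map_zero]
  obtain ⟨i, j, hij, e⟩ := hfin.exists_lt_map_eq_of_forall_mem hmem
  refine ⟨j - i, by omega, ?_⟩
  apply (Function.Injective.iterate (frob k).injective i)
  rw [← Function.iterate_add_apply, show i + (j - i) = j by omega, e]

theorem sP_periodic (g : MvPolynomial (Fin d) (AlgebraicClosure k)) :
    ∃ n, 0 < n ∧ (sP k d)^[n] g = g := by
  choose N hN0 hN using frob_periodic k
  refine ⟨∏ m ∈ g.support, N (MvPolynomial.coeff m g), Finset.prod_pos fun m _ => hN0 _, ?_⟩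
  ext m
  rw [coeff_sP_pow]
  by_cases hm : m ∈ g.support
  · exact Function.IsPeriodicPt.trans_dvd (hN _) (Finset.dvd_prod_of_mem _ hm)
  · rw [MvPolynomial.notMem_support_iff.1 hm]
    exact Function.iterate_fixed (map_zero _) _

theorem fixed_poly {g : MvPolynomial (Fin d) (AlgebraicClosure k)} (hg : sP k d g = g) :
    ∃ g0 : MvPolynomial (Fin d) k,
      MvPolynomial.map (algebraMap k (AlgebraicClosure k)) g0 = g := by
  have : g ∈ Set.range (MvPolynomial.map (σ := Fin d) (algebraMap k (AlgebraicClosure k))) := by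
    rw [MvPolynomial.mem_range_map_iff_coeffs_subset]
    intro c hc
    obtain ⟨m, -, rfl⟩ := MvPolynomial.mem_coeffs_iff.1 hc
    apply mem_range_of_frob
    rw [← coeff_sP, hg]
  exact this

theorem sP_map (g0 : MvPolynomial (Fin d) k) :
    sP k d (MvPolynomial.map (algebraMap k (AlgebraicClosure k)) g0)
      = MvPolynomial.map (algebraMap k (AlgebraicClosure k)) g0 := by
  ext m
  rw [coeff_sP, MvPolynomial.coeff_map, AlgEquiv.commutes]

/-- Frobenius on the rational function field -/
noncomputable def sL : LL (AlgebraicClosure k) d ≃+* LL (AlgebraicClosure k) d :=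
  IsFractionRing.ringEquivOfRingEquiv (sP k d)

theorem sL_alg (g : MvPolynomial (Fin d) (AlgebraicClosure k)) :
    sL k d (algebraMap _ _ g) = algebraMap _ _ (sP k d g) :=
  IsFractionRing.ringEquivOfRingEquiv_algebraMap _ _

/-- the inclusion of rational function fields -/
noncomputable def inc : LL k d →+* LL (AlgebraicClosure k) d :=
  IsFractionRing.map (A := MvPolynomial (Fin d) k)
    (B := MvPolynomial (Fin d) (AlgebraicClosure k))
    (j := MvPolynomial.map (algebraMap k (AlgebraicClosure k)))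
    (MvPolynomial.map_injective _ (algebraMap k (AlgebraicClosure k)).injective)

omit [Fintype k] in
theorem inc_alg (g : MvPolynomial (Fin d) k) :
    inc k d (algebraMap _ _ g)
      = algebraMap _ _ (MvPolynomial.map (algebraMap k (AlgebraicClosure k)) g) := by
  unfold inc IsFractionRing.map
  rw [IsLocalization.map_eq]

theorem sL_inc (x : LL k d) : sL k d (inc k d x) = inc k d x := by
  obtain ⟨a, b, -, rfl⟩ := IsFractionRing.div_surjective (A := MvPolynomial (Fin d) k) x
  rw [map_div₀, map_div₀, inc_alg, inc_alg, sL_alg, sL_alg, sP_map, sP_map]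

theorem fixed_L {x : LL (AlgebraicClosure k) d} (hx : sL k d x = x) : x ∈ Set.range (inc k d) := by
  obtain ⟨a, b, hb, rfl⟩ :=
    IsFractionRing.div_surjective (A := MvPolynomial (Fin d) (AlgebraicClosure k)) x
  have hb0 : b ≠ 0 := nonZeroDivisors.ne_zero hb
  have hinj := IsFractionRing.injective (MvPolynomial (Fin d) (AlgebraicClosure k))
    (LL (AlgebraicClosure k) d)
  obtain ⟨n, hn, hper⟩ := sP_periodic k d b
  obtain ⟨n, rfl⟩ : ∃ m, n = m + 1 := ⟨n - 1, by omega⟩
  set c := ∏ i ∈ Finset.range n, (sP k d)^[i + 1] b with hc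
  have hit : ∀ i, (sP k d)^[i] b ≠ 0 := by
    intro i h
    apply hb0
    apply Function.Injective.iterate (sP k d).injective i
    rw [h]
    exact (Function.iterate_fixed (map_zero _) _).symm
  have hc0 : c ≠ 0 := Finset.prod_ne_zero_iff.2 fun i _ => hit _
  have hbc : sP k d (c * b) = c * b := by
    have e1 : c * b = ∏ i ∈ Finset.range (n + 1), (sP k d)^[i] b := by
      rw [Finset.prod_range_succ']; rfl
    have e2 : c * b = ∏ i ∈ Finset.range (n + 1), (sP k d)^[i + 1] b := by
      rw [Finset.prod_range_succ, hper]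
    conv_lhs => rw [e1]
    rw [e2, map_prod]
    exact Finset.prod_congr rfl fun i _ => (Function.iterate_succ_apply' _ _ _).symm
  have m1 : algebraMap _ (LL (AlgebraicClosure k) d) b ≠ 0 := (map_ne_zero_iff _ hinj).2 hb0
  have m2 : algebraMap _ (LL (AlgebraicClosure k) d) c ≠ 0 := (map_ne_zero_iff _ hinj).2 hc0
  have e : algebraMap _ (LL (AlgebraicClosure k) d) (c * a)
      = algebraMap _ _ a / algebraMap _ _ b * algebraMap _ _ (c * b) := by
    rw [map_mul, map_mul]; field_simp
  have hac : sP k d (c * a) = c * a := by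
    apply hinj
    rw [← sL_alg, e, map_mul, hx, sL_alg, hbc]
  obtain ⟨a0, ha0⟩ := fixed_poly k d hac
  obtain ⟨b0, hb0'⟩ := fixed_poly k d hbc
  refine ⟨algebraMap _ _ a0 / algebraMap _ _ b0, ?_⟩
  rw [map_div₀, inc_alg, inc_alg, ha0, hb0', map_mul, map_mul]
  field_simp

theorem sL_const (c : AlgebraicClosure k) :
    sL k d (algebraMap (AlgebraicClosure k) _ c) = algebraMap (AlgebraicClosure k) _ (frob k c) := by
  rw [IsScalarTower.algebraMap_apply (AlgebraicClosure k)
      (MvPolynomial (Fin d) (AlgebraicClosure k)) (LL (AlgebraicClosure k) d),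
    IsScalarTower.algebraMap_apply (AlgebraicClosure k)
      (MvPolynomial (Fin d) (AlgebraicClosure k)) (LL (AlgebraicClosure k) d), sL_alg]
  congr 1
  simp [sP]

theorem exists_fields' :
    ∃ (L : Type) (_ : Field L) (_ : Algebra (FractionRing (MvPolynomial (Fin d) k)) L)
      (σ : L ≃ₐ[FractionRing (MvPolynomial (Fin d) k)] L)
      (K : Type) (_ : Field K) (_ : IsAlgClosed K) (ι : K →+* L),
      (∀ x : L, σ x = x →
        x ∈ Set.range (algebraMap (FractionRing (MvPolynomial (Fin d) k)) L)) ∧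
      (∀ N : ℕ, 0 < N → ∃ ζ : L, (σ ^ N) ζ = ζ ∧
        ∀ i j : ℕ, i < N → j < N → (σ ^ i) ζ = (σ ^ j) ζ → i = j) ∧
      (∀ c : K, σ (ι c) ∈ Set.range ι) ∧ Nonempty (RigData L (Set.range ι)) := by
  let A : Algebra (FractionRing (MvPolynomial (Fin d) k)) (LL (AlgebraicClosure k) d) :=
    (inc k d).toAlgebra
  let σ : LL (AlgebraicClosure k) d ≃ₐ[FractionRing (MvPolynomial (Fin d) k)]
      LL (AlgebraicClosure k) d := AlgEquiv.ofRingEquiv (f := sL k d) (sL_inc k d)
  have hσ : ∀ x, σ x = sL k d x := fun _ => rfl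
  have hpow : ∀ (n : ℕ) (c : AlgebraicClosure k), (σ ^ n) (algebraMap (AlgebraicClosure k) _ c)
      = algebraMap (AlgebraicClosure k) _ ((frob k ^ n) c) := by
    intro n c
    induction n with
    | zero => rfl
    | succ n ih => rw [pow_succ', pow_succ', AlgEquiv.mul_apply, AlgEquiv.mul_apply, ih, hσ,
        sL_const]
  refine ⟨LL (AlgebraicClosure k) d, inferInstance, A, σ, AlgebraicClosure k, inferInstance,
    inferInstance, algebraMap (AlgebraicClosure k) _, fun x hx => fixed_L k d hx, ?_, ?_,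
    rigData _ d⟩
  · intro N hN
    obtain ⟨ζ, h1, h2⟩ := exists_orbit (k := k) N hN
    refine ⟨algebraMap (AlgebraicClosure k) _ ζ, by rw [hpow, h1], fun i j hi hj e => ?_⟩
    rw [hpow, hpow] at e
    exact h2 i j hi hj ((algebraMap (AlgebraicClosure k) _).injective e)
  · intro c
    exact ⟨frob k c, (sL_const k d c).symm⟩

end

theorem exists_fields (p : ℕ) [Fact p.Prime] (d : ℕ) :
    ∃ (L : Type) (_ : Field L) (_ : Algebra (FractionRing (MvPolynomial (Fin d) (ZMod p))) L)
      (σ : L ≃ₐ[FractionRing (MvPolynomial (Fin d) (ZMod p))] L)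
      (K : Type) (_ : Field K) (_ : IsAlgClosed K) (ι : K →+* L),
      (∀ x : L, σ x = x →
        x ∈ Set.range (algebraMap (FractionRing (MvPolynomial (Fin d) (ZMod p))) L)) ∧
      (∀ N : ℕ, 0 < N → ∃ ζ : L, (σ ^ N) ζ = ζ ∧
        ∀ i j : ℕ, i < N → j < N → (σ ^ i) ζ = (σ ^ j) ζ → i = j) ∧
      (∀ c : K, σ (ι c) ∈ Set.range ι) ∧ Nonempty (RigData L (Set.range ι)) :=
  exists_fields' (ZMod p) d

end Pool.Agent.H784Z.Rig
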